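import Pool.Agent.H94.MGDefs
import Pool.Agent.H94.MGProof

set_option autoImplicit false

namespace Pool.Agent.Results.MP_89e789_an.NoThreshold

open Matrix Pool.Agent.H94.MGDefs

/-- With `C_R = 1`, `C_{A2} = 4`, `α = 1/2`: for every number `m ≥ 1` of smoothing steps and
every `M` there is an admissible hierarchy of some depth `L` whose V-cycle error operator has
energy norm at least `M`. -/
theorem result (m : ℕ) (hm : 1 ≤ m) (M : ℝ) :
    ∃ (n : ℕ → ℕ) (H : Hierarchy n) (L : ℕ), 1 ≤ L ∧ H.Admissible L 1 4 (1 / 2) ∧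
      ∃ v : Fin (n L) → ℝ, v ≠ 0 ∧
        M * energyNorm (H.A L) v ≤ energyNorm (H.A L) (H.E m L *ᵥ v) :=
  Pool.Agent.H94.MGProof.main m hm M

end Pool.Agent.Results.MP_89e789_an.NoThreshold
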